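import Mathlib

set_option autoImplicit false

namespace Pool.Agent.Results.MP_f3603a_co.Proof

open Finset

def IsOrientation {V : Type} (G : SimpleGraph V) (D : V → V → Prop) : Prop :=
  (∀ u v, G.Adj u v ↔ D u v ∨ D v u) ∧ ∀ u v, D u v → ¬ D v u

open Classical in
noncomputable def des {V : Type} [Fintype V] (D : V → V → Prop) {n : ℕ} (σ : V ≃ Fin n) : ℕ :=
  (univ.filter (fun p : V × V => D p.1 p.2 ∧ σ p.2 < σ p.1)).card

open Classical in
noncomputable def eulerianPoly {V : Type} [Fintype V] (D : V → V → Prop) : Polynomial ℤ :=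
  ∑ σ : V ≃ Fin (Fintype.card V), Polynomial.X ^ des D σ

noncomputable def nu {V : Type} [Fintype V] (D : V → V → Prop) : ℤ :=
  |(eulerianPoly D).eval (-1)|

open Classical in
noncomputable def A {V : Type} [Fintype V] (D : V → V → Prop) (n : ℕ) : ℤ :=
  ∑ σ : V ≃ Fin n, (-1) ^ des D σ

theorem nu_eq {V : Type} [Fintype V] (D : V → V → Prop) (n : ℕ) (h : Fintype.card V = n) :
    nu D = |A D n| := by
  subst h
  simp [nu, eulerianPoly, A, Polynomial.eval_finsetSum]

theorem kalai {V : Type} [Fintype V] {G : SimpleGraph V} {D E : V → V → Prop}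
    (hD : IsOrientation G D) (hE : IsOrientation G E) (n : ℕ) : |A D n| = |A E n| := by
  classical
  have key : ∀ σ : V ≃ Fin n, des D σ + des E σ =
      2 * (univ.filter (fun p : V × V => (D p.1 p.2 ∧ σ p.2 < σ p.1) ∧ E p.1 p.2)).card +
        (univ.filter (fun p : V × V => D p.1 p.2 ∧ ¬ E p.1 p.2)).card := by
    intro σ
    have a1 := card_filter_add_card_filter_not
      (s := univ.filter (fun p : V × V => D p.1 p.2 ∧ σ p.2 < σ p.1)) (fun p => E p.1 p.2)
    have a2 := card_filter_add_card_filter_not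
      (s := univ.filter (fun p : V × V => E p.1 p.2 ∧ σ p.2 < σ p.1)) (fun p => D p.1 p.2)
    have a3 := card_filter_add_card_filter_not
      (s := univ.filter (fun p : V × V => D p.1 p.2 ∧ ¬ E p.1 p.2)) (fun p => σ p.2 < σ p.1)
    simp only [filter_filter] at a1 a2 a3
    have b1 : univ.filter (fun p : V × V => (E p.1 p.2 ∧ σ p.2 < σ p.1) ∧ D p.1 p.2) =
        univ.filter (fun p : V × V => (D p.1 p.2 ∧ σ p.2 < σ p.1) ∧ E p.1 p.2) :=
      filter_congr (fun p _ => by tauto)
    have b2 : univ.filter (fun p : V × V => (D p.1 p.2 ∧ ¬ E p.1 p.2) ∧ σ p.2 < σ p.1) =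
        univ.filter (fun p : V × V => (D p.1 p.2 ∧ σ p.2 < σ p.1) ∧ ¬ E p.1 p.2) :=
      filter_congr (fun p _ => by tauto)
    have b3 : (univ.filter (fun p : V × V => (D p.1 p.2 ∧ ¬ E p.1 p.2) ∧ ¬ σ p.2 < σ p.1)).card =
        (univ.filter (fun p : V × V => (E p.1 p.2 ∧ σ p.2 < σ p.1) ∧ ¬ D p.1 p.2)).card := by
      refine card_bijective Prod.swap Prod.swap_bijective (fun p => ?_)
      simp only [mem_filter, mem_univ, true_and, Prod.fst_swap, Prod.snd_swap]
      constructor
      · rintro ⟨⟨c1, c2⟩, c3⟩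
        have c4 := (hD.1 _ _).2 (Or.inl c1)
        exact ⟨⟨((hE.1 _ _).1 c4).resolve_left c2,
          lt_of_le_of_ne (not_lt.1 c3) (fun e => c4.ne (σ.injective e))⟩, hD.2 _ _ c1⟩
      · rintro ⟨⟨c1, c2⟩, c3⟩
        exact ⟨⟨((hD.1 _ _).1 ((hE.1 _ _).2 (Or.inl c1))).resolve_left c3, hE.2 _ _ c1⟩, lt_asymm c2⟩
    rw [b1] at a2
    rw [b2, b3] at a3
    unfold des
    omega
  have e : A D n = (-1) ^ (univ.filter (fun p : V × V => D p.1 p.2 ∧ ¬ E p.1 p.2)).card * A E n := by
    unfold A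
    rw [mul_sum]
    refine sum_congr rfl (fun σ _ => ?_)
    have h := congrArg (fun k => (-1 : ℤ) ^ k) (key σ)
    simp only [pow_add, pow_mul, neg_one_sq, one_pow, one_mul] at h
    rw [← h, mul_assoc, ← pow_add, ← two_mul, pow_mul]
    simp
  rw [e, abs_mul]
  simp

theorem desSplit {V : Type} [Fintype V] [DecidableEq V] (D : V → V → Prop) [DecidableRel D]
    (hD : ∀ u, ¬ D u u) {n : ℕ} (σ : V ≃ Fin n) (w : V) : des D σ =
      (univ.filter (fun p : V × V => (D p.1 p.2 ∧ σ p.2 < σ p.1) ∧ p.1 ≠ w ∧ p.2 ≠ w)).card +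
      (univ.filter (fun u => D w u ∧ σ u < σ w)).card +
      (univ.filter (fun u => D u w ∧ σ w < σ u)).card := by
  have a1 := card_filter_add_card_filter_not
    (s := univ.filter (fun p : V × V => D p.1 p.2 ∧ σ p.2 < σ p.1)) (fun p => p.1 = w)
  have a2 := card_filter_add_card_filter_not
    (s := univ.filter (fun p : V × V => (D p.1 p.2 ∧ σ p.2 < σ p.1) ∧ ¬ p.1 = w)) (fun p => p.2 = w)
  simp only [filter_filter] at a1 a2
  have b1 : (univ.filter (fun u => D w u ∧ σ u < σ w)).card =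
      (univ.filter (fun p : V × V => (D p.1 p.2 ∧ σ p.2 < σ p.1) ∧ p.1 = w)).card := by
    refine card_bij (fun u _ => (w, u)) (by simp) (by simp) ?_
    rintro ⟨a, b⟩ h
    simp only [mem_filter, mem_univ, true_and] at h
    obtain ⟨h, rfl⟩ := h
    exact ⟨b, by simpa using h, rfl⟩
  have b2 : (univ.filter (fun u => D u w ∧ σ w < σ u)).card =
      (univ.filter (fun p : V × V => ((D p.1 p.2 ∧ σ p.2 < σ p.1) ∧ ¬ p.1 = w) ∧ p.2 = w)).card := by
    refine card_bij (fun u _ => (u, w)) ?_ (by simp) ?_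
    · intro u hu
      simp only [mem_filter, mem_univ, true_and, and_true] at hu ⊢
      exact ⟨hu, fun e => hD w (e ▸ hu.1)⟩
    · rintro ⟨a, b⟩ h
      simp only [mem_filter, mem_univ, true_and] at h
      obtain ⟨h, rfl⟩ := h
      exact ⟨a, by simpa using h.1, rfl⟩
  have b3 : des D σ = (univ.filter (fun p : V × V => D p.1 p.2 ∧ σ p.2 < σ p.1)).card := by
    unfold des
    congr
  simp only [and_assoc] at a1 a2 b1 b2 ⊢
  rw [b3, b1, b2]
  simp only [ne_eq]
  omega

theorem rot {V : Type} [Fintype V] [DecidableEq V] {G : SimpleGraph V} [DecidableRel G.Adj]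
    {D : V → V → Prop} (hD : IsOrientation G D) (hG : ∀ v, Even (G.degree v)) {m : ℕ}
    (σ : V ≃ Fin (m + 1)) : (-1 : ℤ) ^ des D (σ.trans (finRotate (m + 1))) = (-1) ^ des D σ := by
  classical
  have irr : ∀ u, ¬ D u u := fun u h => hD.2 u u h h
  obtain ⟨w, hw⟩ := σ.surjective (Fin.last m)
  have h0 : (σ.trans (finRotate (m + 1))) w = 0 := by simp [hw]
  have h1 : ∀ u, u ≠ w → σ u < Fin.last m := fun u h =>
    Fin.lt_last_iff_ne_last.2 (fun e => h (σ.injective (e.trans hw.symm)))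
  have h2 : ∀ u, u ≠ w → ((σ.trans (finRotate (m + 1))) u).1 = (σ u).1 + 1 := fun u h => by
    simp [Fin.val_add_one_of_lt (h1 u h)]
  rw [desSplit D irr σ w, desSplit D irr _ w]
  have a1 : univ.filter (fun p : V × V => (D p.1 p.2 ∧ (σ.trans (finRotate (m + 1))) p.2 <
      (σ.trans (finRotate (m + 1))) p.1) ∧ p.1 ≠ w ∧ p.2 ≠ w) =
      univ.filter (fun p : V × V => (D p.1 p.2 ∧ σ p.2 < σ p.1) ∧ p.1 ≠ w ∧ p.2 ≠ w) := by
    refine filter_congr (fun p _ => and_congr_left (fun h => and_congr_right (fun _ => ?_)))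
    rw [Fin.lt_def, Fin.lt_def, h2 _ h.1, h2 _ h.2]
    omega
  have a2 : univ.filter (fun u => D w u ∧ (σ.trans (finRotate (m + 1))) u <
      (σ.trans (finRotate (m + 1))) w) = ∅ := by
    rw [h0]; simp
  have a3 : univ.filter (fun u => D u w ∧ (σ.trans (finRotate (m + 1))) w <
      (σ.trans (finRotate (m + 1))) u) = univ.filter (fun u => D u w) := by
    refine filter_congr (fun u _ => and_iff_left_of_imp (fun h => ?_))
    rw [h0, Fin.lt_def, h2 u (fun e => irr w (e ▸ h))]
    simp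
  have a4 : univ.filter (fun u => D w u ∧ σ u < σ w) = univ.filter (fun u => D w u) := by
    refine filter_congr (fun u _ => and_iff_left_of_imp (fun h => ?_))
    rw [hw]
    exact h1 u (fun e => irr w (e ▸ h))
  have a5 : univ.filter (fun u => D u w ∧ σ w < σ u) = ∅ := by
    rw [hw]; simp [Fin.le_last]
  have a6 : G.degree w = (univ.filter (fun u => D w u)).card + (univ.filter (fun u => D u w)).card := by
    rw [← card_union_of_disjoint (disjoint_filter.2 (fun u _ h => hD.2 _ _ h)), ← filter_or,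
      ← SimpleGraph.card_neighborFinset_eq_degree]
    congr 1
    ext u
    simp [hD.1]
  rw [a1, a2, a3, a4, a5]
  have a7 := hG w
  rw [a6] at a7
  simp only [card_empty, add_zero, pow_add]
  congr 1
  rcases Nat.even_or_odd (univ.filter (fun u => D w u)).card with c | c
  · rw [c.neg_one_pow, ((Nat.even_add.1 a7).1 c).neg_one_pow]
  · rw [c.neg_one_pow, ((Nat.even_add'.1 a7).1 c).neg_one_pow]

theorem lastSum {V : Type} [Fintype V] [DecidableEq V] (D : V → V → Prop) (irr : ∀ u, ¬ D u u)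
    {m : ℕ} (v : V) :
    |∑ σ ∈ univ.filter (fun σ : V ≃ Fin (m + 1) => σ v = Fin.last m), (-1 : ℤ) ^ des D σ| =
      |A (fun a b : {u | u ≠ v} => D a b) m| := by
  classical
  let f : ({u | u ≠ v} ≃ Fin m) → (V ≃ Fin (m + 1)) := fun τ =>
    (Equiv.optionSubtypeNe v).symm.trans ((Equiv.optionCongr τ).trans finSuccEquivLast.symm)
  have f1 : ∀ τ, f τ v = Fin.last m := fun τ => by simp [f]
  have f2 : ∀ τ u (h : u ≠ v), f τ u = (τ ⟨u, h⟩).castSucc := fun τ u h => by simp [f, h]
  have e : ∑ σ ∈ univ.filter (fun σ : V ≃ Fin (m + 1) => σ v = Fin.last m), (-1 : ℤ) ^ des D σ =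
      (-1) ^ (univ.filter (fun u => D v u)).card * A (fun a b : {u | u ≠ v} => D a b) m := by
    unfold A
    rw [mul_sum]
    symm
    refine sum_bij (fun τ _ => f τ) (fun τ _ => by simp [f1]) (fun τ _ τ' _ h => ?_)
      (fun σ hσ => ?_) (fun τ _ => ?_)
    · ext ⟨u, hu⟩
      have := congrArg (fun σ : V ≃ Fin (m + 1) => σ u) h
      simp only [f2 _ u hu, Fin.castSucc_inj] at this
      rw [this]
    · have h1 : σ v = Fin.last m := (mem_filter.1 hσ).2
      refine ⟨Equiv.removeNone ((Equiv.optionSubtypeNe v).trans (σ.trans finSuccEquivLast)),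
        by simp, ?_⟩
      ext u
      by_cases h : u = v
      · rw [h, f1, h1]
      · rw [f2 _ u h]
        obtain ⟨j, hj⟩ := Fin.exists_castSucc_eq.2
          (show σ u ≠ Fin.last m from fun e => h (σ.injective (e.trans h1.symm)))
        have := Equiv.removeNone_some ((Equiv.optionSubtypeNe v).trans (σ.trans finSuccEquivLast))
          (x := ⟨u, h⟩) ⟨j, by simp [← hj]⟩
        simp only [Equiv.trans_apply, Equiv.optionSubtypeNe_some, ← hj,
          finSuccEquivLast_castSucc, Option.some.injEq] at this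
        rw [← hj, ← this]
    · rw [desSplit D irr (f τ) v, ← pow_add]
      congr 1
      have a4 : univ.filter (fun u => D v u ∧ f τ u < f τ v) = univ.filter (fun u => D v u) := by
        refine filter_congr (fun u _ => and_iff_left_of_imp (fun h => ?_))
        rw [f1, f2 τ u (fun e => irr v (e ▸ h))]
        exact Fin.castSucc_lt_last _
      have a5 : univ.filter (fun u => D u v ∧ f τ v < f τ u) = ∅ := by
        rw [f1]; simp [Fin.le_last]
      rw [a4, a5, card_empty, add_zero, add_comm]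
      congr 1
      unfold des
      refine card_bij (fun p _ => (p.1.1, p.2.1)) ?_ ?_ ?_
      · rintro ⟨⟨a, ha⟩, ⟨b, hb⟩⟩ h
        simp only [mem_filter, mem_univ, true_and] at h ⊢
        rw [f2 τ a ha, f2 τ b hb]
        exact ⟨⟨h.1, by simpa using h.2⟩, ha, hb⟩
      · rintro ⟨⟨a, ha⟩, ⟨b, hb⟩⟩ _ ⟨⟨c, hc⟩, ⟨d, hd⟩⟩ _ h
        simpa using h
      · rintro ⟨a, b⟩ h
        simp only [mem_filter, mem_univ, true_and] at h
        obtain ⟨⟨h1, h2⟩, h3, h4⟩ := h
        rw [f2 τ a h3, f2 τ b h4] at h2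
        exact ⟨(⟨a, h3⟩, ⟨b, h4⟩), by simpa using ⟨h1, by simpa using h2⟩, rfl⟩
  rw [e, abs_mul]
  simp

theorem result (V : Type) [Fintype V] [DecidableEq V] [Nonempty V] (G : SimpleGraph V)
    [DecidableRel G.Adj] (hG : ∀ v, Even (G.degree v))
    (D : V → V → Prop) (hD : IsOrientation G D)
    (E : (v : V) → {u | u ≠ v} → {u | u ≠ v} → Prop)
    (hE : ∀ v, IsOrientation (G.induce {u | u ≠ v}) (E v)) :
    nu D = ∑ v, nu (E v) := by
  classical
  obtain ⟨m, hm⟩ : ∃ m, Fintype.card V = m + 1 :=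
    ⟨Fintype.card V - 1, by have := Fintype.card_pos (α := V); omega⟩
  have irr : ∀ u, ¬ D u u := fun u h => hD.2 u u h h
  let T : V → Fin (m + 1) → ℤ := fun v i =>
    ∑ σ ∈ univ.filter (fun σ : V ≃ Fin (m + 1) => σ v = i), (-1 : ℤ) ^ des D σ
  have t1 : ∀ v i, T v (finRotate (m + 1) i) = T v i := by
    intro v i
    symm
    refine sum_bijective (fun σ => σ.trans (finRotate (m + 1)))
      ((Equiv.refl V).equivCongr (finRotate (m + 1))).bijective (fun σ => ?_)
      (fun σ _ => (rot hD hG σ).symm)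
    simp only [mem_filter, mem_univ, true_and, Equiv.trans_apply, EmbeddingLike.apply_eq_iff_eq]
  have t2 : ∀ v i, T v i = T v (Fin.last m) := by
    intro v i
    induction i using Fin.induction with
    | zero => rw [← t1 v (Fin.last m)]; simp
    | succ i ih => rw [← ih, ← t1 v i.castSucc]; simp
  have t3 : ∀ v, A D (m + 1) = (m + 1) * T v (Fin.last m) := by
    intro v
    have : A D (m + 1) = ∑ i, T v i := by
      unfold A
      rw [← sum_fiberwise_of_maps_to (t := univ) (g := fun σ : V ≃ Fin (m + 1) => σ v)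
        (fun _ _ => mem_univ _)]
      refine sum_congr rfl (fun i _ => sum_congr ?_ (fun _ _ => rfl))
      ext σ
      simp
    rw [this, sum_congr rfl (fun i _ => t2 v i)]
    simp
  have t4 : ∀ v, nu (E v) = |T v (Fin.last m)| := by
    intro v
    rw [nu_eq (E v) m (by simp [filter_ne', hm]), lastSum D irr v]
    exact kalai (hE v) ⟨fun a b => hD.1 a b, fun a b => hD.2 a b⟩ m
  have t5 : ∀ v, |A D (m + 1)| = (m + 1) * nu (E v) := by
    intro v
    rw [t3 v, abs_mul, t4, abs_of_pos (by positivity)]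
  rw [nu_eq D _ hm]
  refine mul_left_cancel₀ (show ((m : ℤ) + 1) ≠ 0 by positivity) ?_
  rw [mul_sum, sum_congr rfl (fun v _ => (t5 v).symm)]
  simp [hm]

end Pool.Agent.Results.MP_f3603a_co.Proof
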